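import Pool.Agent.KS6_94.SK.Proof

/-!
# Omega-modifications of countable unions of Lindelöf scattered spaces

Let `K` be a regular Hausdorff space which is the union of countably many closed Lindelöf scattered
subspaces `A n`. Then the omega-modification `X` of `K` is Lindelöf, and for every countable set `S`
and all closed sets `F n` of the powers `X ^ n` there is a continuous retraction of `X` onto a
countable set which contains `S` and which preserves all `F n`. In particular `X` is a Sokolov space.

Idea. On `A n` there is an injective rank `ρ n` with open initial segments. Choose for `x ∈ A n` a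
clopen set `U n x ∋ x` of `X` with `ρ n ≤ ρ n x` on `U n x ∩ A n`, and for a clopen set `C` a countable
set `W n C ⊆ C ∩ A n` such that the sets `U n x`, `x ∈ W n C`, cover `C ∩ A n`. Close off to get a
countable set `P` of points and a countable algebra `B` of clopen sets. If `z ∈ A n` and `x` is the
point of least rank in `P ∩ A n` with `z ∈ U n x`, then `x` and `z` are in the same members of `B`.
The map `z ↦ x` is the retraction.
-/

set_option autoImplicit false

open Set Topology Filter TopologicalSpace
open Pool.Agent.KS6_94.SK

universe u

namespace Pool.Agent.Results.MP_1116a9_gt.CountableUnions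

/-- (1) Let the regular Hausdorff space `K` be the union of countably many closed Lindelöf scattered
subspaces `A n`. Then the omega-modification of `K` is Lindelöf and a Sokolov space; even more, it
has continuous retractions onto countable sets containing a given countable set and preserving
given closed subsets of the finite powers.
(2) Let the regular Hausdorff space `K` be the union of countably many closed subspaces `A n` which
are Lindelöf and Čech-complete (for example compact). Then the following are equivalent: the
omega-modification of `K` is a Sokolov space; it has the retractions of (1); it is Lindelöf; it has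
no uncountable closed discrete subset; all `A n` are scattered; all compact subspaces of `K` are
scattered. -/
theorem result :
    (∀ (K : Type u) [TopologicalSpace K] [T3Space K] (A : ℕ → Set K), (∀ n, IsClosed (A n)) →
      (∀ n, IsLindelof (A n)) → (⋃ n, A n = univ) → (∀ n, Scattered (A n)) →
      LindelofSpace (OmegaMod K) ∧ IsSokolov (OmegaMod K) ∧
        HasCountableRetractions (OmegaMod K)) ∧
    (∀ (K : Type u) [TopologicalSpace K] [T3Space K] (A : ℕ → Set K), (∀ n, IsClosed (A n)) →
      (∀ n, IsLindelof (A n)) → (⋃ n, A n = univ) → (∀ n, CechComplete (A n)) →
      List.TFAE [IsSokolov (OmegaMod K), HasCountableRetractions (OmegaMod K),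
        LindelofSpace (OmegaMod K), CountableExtent (OmegaMod K), ∀ n, Scattered (A n),
        ∀ C : Set K, IsCompact C → Scattered C]) := by
  refine ⟨?_, ?_⟩
  · intro K _ _ A hAc hAL hA hs
    have h1 := retractions A hAc hAL hs hA
    exact ⟨lindelof_mod A hAc hAL hs hA, isSokolov_of_retractions h1, h1⟩
  · intro K _ _ A hAc hAL hA hC
    tfae_have 2 → 1 := isSokolov_of_retractions
    tfae_have 1 → 4 := countableExtent_of_sokolov
    tfae_have 3 → 4 := countableExtent_of_lindelof
    tfae_have 4 → 5 := by
      intro h n
      by_contra hn
      obtain ⟨C, -, D, hD, hd, hc, -⟩ := exists_compact (hAc n) (hC n) hn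
      exact hc (h D hD hd)
    tfae_have 5 → 2 := fun h => retractions A hAc hAL h hA
    tfae_have 5 → 3 := fun h => lindelof_mod A hAc hAL h hA
    tfae_have 4 → 6 := by
      intro h C hCc
      by_contra hn
      have : CompactSpace C := isCompact_iff_compactSpace.1 hCc
      obtain ⟨C', -, D, hD, hd, hc, -⟩ := exists_compact hCc.isClosed cechComplete_of_compact hn
      exact hc (h D hD hd)
    tfae_have 6 → 5 := by
      intro h n
      by_contra hn
      obtain ⟨C, hCc, D, hD, hd, hc, hDC⟩ := exists_compact (hAc n) (hC n) hn
      exact not_scattered_of_discrete hCc hD hd hc hDC (h C hCc)
    tfae_finish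

end Pool.Agent.Results.MP_1116a9_gt.CountableUnions
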